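import Pool.Agent.Q39.ST.Latt

/-!
# The two arrangements of the example
-/

set_option autoImplicit false

open MvPolynomial

namespace Pool.Agent.Q39.ST

variable {K : Type*} [Field K]

/-- The arrangement `z (x) (x - z) (x + z) (y - z) (y + z) = 0`. -/
def modelA : Model 6 16 3 where
  a := ![![0, 0, 1], ![1, 0, 0], ![1, 0, -1], ![1, 0, 1], ![0, 1, -1], ![0, 1, 1]]
  F := ![∅, {0}, {1}, {2}, {3}, {4}, {5}, {0, 1, 2, 3}, {0, 4, 5}, {1, 4}, {1, 5}, {2, 4}, {2, 5}, {3, 4}, {3, 5}, {0, 1, 2, 3, 4, 5}]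
  w := ![![-2, -2, -1], ![-1, -1, 0], ![0, 0, -1], ![-1, 0, -1], ![-1, 0, 1], ![-2, -1, -1], ![-2, -1, 1], ![0, -1, 0], ![-1, 0, 0], ![0, -1, -1], ![0, -1, 1], ![-1, -1, -1], ![-1, 1, -1], ![-1, 1, 1], ![-1, -1, 1], ![0, 0, 0]]
  st := ![![1, 2, 3, 4, 5, 6], ![1, 7, 7, 7, 8, 8], ![7, 2, 7, 7, 9, 10], ![7, 7, 3, 7, 11, 12], ![7, 7, 7, 4, 13, 14], ![8, 9, 11, 13, 5, 8], ![8, 10, 12, 14, 8, 6], ![7, 7, 7, 7, 15, 15], ![8, 15, 15, 15, 8, 8], ![15, 9, 15, 15, 9, 15], ![15, 10, 15, 15, 15, 10], ![15, 15, 11, 15, 11, 15], ![15, 15, 12, 15, 15, 12], ![15, 15, 15, 13, 13, 15], ![15, 15, 15, 14, 15, 14], ![15, 15, 15, 15, 15, 15]]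
  rk := ![0, 1, 1, 1, 1, 1, 1, 2, 2, 2, 2, 2, 2, 2, 2, 3]
  m := ![1, -1, -1, -1, -1, -1, -1, 3, 2, 1, 1, 1, 1, 1, 1, -6]
  top := 0
/-- The arrangement `x y = 0`. -/
def modelB : Model 2 4 2 where
  a := ![![1, 0], ![0, 1]]
  F := ![∅, {0}, {1}, {0, 1}]
  w := ![![-1, -1], ![0, -1], ![-1, 0], ![0, 0]]
  st := ![![1, 2], ![1, 3], ![3, 2], ![3, 3]]
  rk := ![0, 1, 1, 2]
  m := ![1, -1, -1, 1]
  top := 0

theorem goodA : modelA.Good where
  gen := by decide +kernel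
  inj := by decide +kernel
  ftop := by decide +kernel
  rktop := by decide +kernel
  chain := by decide +kernel
  mtop := by decide +kernel
  mob := by decide +kernel

theorem goodB : modelB.Good where
  gen := by decide +kernel
  inj := by decide +kernel
  ftop := by decide +kernel
  rktop := by decide +kernel
  chain := by decide +kernel
  mtop := by decide +kernel
  mob := by decide +kernel

theorem stB (c : Fin 4) (i : Fin 2) :
    modelB.flat K c ⊓ modelB.h K i = modelB.flat K (modelB.st c i) := by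
  ext v
  rw [Submodule.mem_inf, Model.mem_flat, Model.mem_flat, Model.h, mem_hyp]
  fin_cases c <;> fin_cases i <;> simp [modelB, Fin.sum_univ_two] <;> grind

theorem stA [CharZero K] (c : Fin 16) (i : Fin 6) :
    modelA.flat K c ⊓ modelA.h K i = modelA.flat K (modelA.st c i) := by
  ext v
  rw [Submodule.mem_inf, Model.mem_flat, Model.mem_flat, Model.h, mem_hyp]
  fin_cases c <;> fin_cases i <;> simp [modelA, Fin.sum_univ_three] <;> grind

end Pool.Agent.Q39.ST
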