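import Mathlib

/-!
# Solomon-Terao algebras and Poincare polynomials of hyperplane arrangements
-/

set_option autoImplicit false

open MvPolynomial

namespace Pool.Agent.Q39.ST

variable {K : Type*} [Field K] {n : ℕ}

/-- The subspace `a · v = 0` of `K^n`; it is a hyperplane if `a ≠ 0`. -/
def hyp (a : Fin n → K) : Submodule K (Fin n → K) where
  carrier := {v | ∑ i, a i * v i = 0}
  add_mem' {v w} hv hw := by
    simp only [Set.mem_ofPred_eq, Pi.add_apply, mul_add, Finset.sum_add_distrib] at *
    rw [hv, hw, add_zero]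
  zero_mem' := by simp
  smul_mem' c v hv := by
    simp only [Set.mem_ofPred_eq, Pi.smul_apply, smul_eq_mul] at *
    have : ∀ i, a i * (c * v i) = c * (a i * v i) := fun i => by ring
    simp only [this]
    rw [← Finset.mul_sum, hv, mul_zero]

/-- The linear form `a_1 x_1 + ... + a_n x_n`. -/
noncomputable def lin (a : Fin n → K) : MvPolynomial (Fin n) K := ∑ i, C (a i) * X i

/-- `A` is an arrangement: a finite set of linear hyperplanes. -/
def IsArr (A : Finset (Submodule K (Fin n → K))) : Prop := ∀ H ∈ A, ∃ a, a ≠ 0 ∧ H = hyp a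

/-- The module `D(A)` of logarithmic derivations: `θ = (θ_1, ..., θ_n)` stands for the derivation
`∑ θ_i ∂/∂x_i`, and `θ(α) ∈ (α)` is required for each linear form `α` whose kernel is in `A`. -/
def derivs (A : Finset (Submodule K (Fin n → K))) : Set (Fin n → MvPolynomial (Fin n) K) :=
  {θ | ∀ a : Fin n → K, a ≠ 0 → hyp a ∈ A → lin a ∣ ∑ i, C (a i) * θ i}

/-- The Solomon-Terao ideal `{θ(η) : θ ∈ D(A)}`. -/
noncomputable def stIdeal (A : Finset (Submodule K (Fin n → K))) (η : MvPolynomial (Fin n) K) :
    Ideal (MvPolynomial (Fin n) K) :=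
  Ideal.span {f | ∃ θ ∈ derivs A, f = ∑ i, θ i * pderiv i η}

/-- The dimension of the part of degree `d` of `S / I`, that is, of the image of the forms of
degree `d` in `S / I`. -/
noncomputable def hilb (I : Ideal (MvPolynomial (Fin n) K)) (d : ℕ) : ℕ :=
  Module.finrank K (Submodule.map (Ideal.Quotient.mkₐ K I).toLinearMap
    (homogeneousSubmodule (Fin n) K d))

/-- `P` is the Hilbert series of the Solomon-Terao algebra `S / stIdeal A η`. -/
def IsHilb (A : Finset (Submodule K (Fin n → K))) (η : MvPolynomial (Fin n) K)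
    (P : Polynomial ℚ) : Prop :=
  ∀ d, P.coeff d = hilb (stIdeal A η) d

open Classical in
/-- The set `L(A)` of all intersections of subsets of `A`, including the whole space. -/
noncomputable def latt (A : Finset (Submodule K (Fin n → K))) :
    Finset (Submodule K (Fin n → K)) :=
  A.powerset.image fun B : Finset (Submodule K (Fin n → K)) =>
    sInf (B : Set (Submodule K (Fin n → K)))

open Classical in
/-- `μ` is the Möbius function of `L`, ordered by reverse inclusion, `μ(V) = 1`. -/
def IsMobius (L : Finset (Submodule K (Fin n → K))) (μ : Submodule K (Fin n → K) → ℤ) : Prop :=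
  μ ⊤ = 1 ∧ ∀ X ∈ L, X ≠ ⊤ → ∑ Y ∈ L with X ≤ Y, μ Y = 0

/-- `P` is the Poincaré polynomial `∑ μ(X) (-t)^(codim X)` of `A`. -/
def IsPoincare (A : Finset (Submodule K (Fin n → K))) (P : Polynomial ℚ) : Prop :=
  ∃ μ, IsMobius (latt A) μ ∧
    P = ∑ X ∈ latt A, Polynomial.C (μ X : ℚ) * (-Polynomial.X) ^ (n - Module.finrank K X)

/-- `η` is non-degenerate on `X`: at each nonzero point `v` of `X` the derivative of `η` in some
direction `w ∈ X` does not vanish. -/
def NonDeg (η : MvPolynomial (Fin n) K) (X : Submodule K (Fin n → K)) : Prop :=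
  ∀ v ∈ X, v ≠ 0 → ∃ w ∈ X, ∑ i, w i * eval v (pderiv i η) ≠ 0

/-- The set `U_2(A)` of the quadratic forms that are non-degenerate on each `X ∈ L(A)`. -/
def U2 (A : Finset (Submodule K (Fin n → K))) (η : MvPolynomial (Fin n) K) : Prop :=
  η.IsHomogeneous 2 ∧ ∀ X ∈ latt A, NonDeg η X

open Classical in
/-- The restriction `A^H`, as an arrangement in `K^m`, for linear coordinates `e` on `H`. -/
noncomputable def restrArr {m : ℕ} (A : Finset (Submodule K (Fin n → K)))
    (H : Submodule K (Fin n → K)) (e : (Fin m → K) ≃ₗ[K] H) :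
    Finset (Submodule K (Fin m → K)) :=
  (A.erase H).image fun L => L.comap (H.subtype ∘ₗ e.toLinearMap)

/-- The restriction of `η` to `H` in the linear coordinates `e`. -/
noncomputable def restrPoly {m : ℕ} (H : Submodule K (Fin n → K)) (e : (Fin m → K) ≃ₗ[K] H)
    (η : MvPolynomial (Fin n) K) : MvPolynomial (Fin m) K :=
  aeval (fun i => ∑ j, C ((e (Pi.single j 1) : Fin n → K) i) * X j) η

end Pool.Agent.Q39.ST
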