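import Pool.Agent.Q39.ST.Hilb

/-!
# The Hilbert functions of the two ideals of the example
-/

set_option autoImplicit false

open MvPolynomial

namespace Pool.Agent.Q39.ST

universe u

variable {K : Type u} [Field K]

theorem redA {Q : Type*} [CommRing Q] [Algebra K Q] (x y z : Q) (hz : z ^ 4 = 0)
    (hy : y ^ 3 = y * z ^ 2) (hx : x ^ 2 = 3 * y ^ 2 - z ^ 2) (W : ℕ → Submodule K Q)
    (hW : ∀ k j i, k < 4 → j < 3 → i < 2 → z ^ k * y ^ j * x ^ i ∈ W (k + j + i)) :
    ∀ i j k, z ^ k * y ^ j * x ^ i ∈ W (k + j + i) := by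
  intro i
  induction i using Nat.strong_induction_on with
  | _ i ih =>
    by_cases hi : i < 2
    · intro j
      induction j using Nat.strong_induction_on with
      | _ j jh =>
        intro k
        by_cases hj : j < 3
        · by_cases hk : k < 4
          · exact hW k j i hk hj hi
          · obtain ⟨k, rfl⟩ : ∃ k', k = k' + 4 := ⟨k - 4, by omega⟩
            rw [pow_add, hz]
            simp
        · obtain ⟨j, rfl⟩ : ∃ j', j = j' + 3 := ⟨j - 3, by omega⟩
          have h1 := jh (j + 1) (by omega) (k + 2)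
          have h2 : z ^ k * y ^ (j + 3) * x ^ i = z ^ (k + 2) * y ^ (j + 1) * x ^ i := by
            rw [pow_add y j 3, hy]
            ring
          rw [h2, show k + (j + 3) + i = k + 2 + (j + 1) + i by ring]
          exact h1
    · intro j k
      obtain ⟨i, rfl⟩ : ∃ i', i = i' + 2 := ⟨i - 2, by omega⟩
      have h1 := ih i (by omega) (j + 2) k
      have h2 := ih i (by omega) j (k + 2)
      have h3 : z ^ k * y ^ j * x ^ (i + 2) =
          (3 : K) • (z ^ k * y ^ (j + 2) * x ^ i) - z ^ (k + 2) * y ^ j * x ^ i := by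
        rw [pow_add x i 2, hx, Algebra.smul_def, map_ofNat]
        ring
      rw [h3]
      rw [show k + (j + 2) + i = k + j + (i + 2) by ring] at h1
      rw [show k + 2 + j + i = k + j + (i + 2) by ring] at h2
      exact Submodule.sub_mem _ (Submodule.smul_mem _ _ h1) h2

theorem redB {Q : Type*} [CommRing Q] [Algebra K Q] (x y : Q) (hy : y ^ 2 = 0)
    (hx : x ^ 2 = 0) (W : ℕ → Submodule K Q)
    (hW : ∀ j i, j < 2 → i < 2 → y ^ j * x ^ i ∈ W (j + i)) :
    ∀ i j, y ^ j * x ^ i ∈ W (j + i) := by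
  intro i j
  by_cases hi : i < 2
  · by_cases hj : j < 2
    · exact hW j i hj hi
    · obtain ⟨j, rfl⟩ : ∃ j', j = j' + 2 := ⟨j - 2, by omega⟩
      rw [pow_add, hy]
      simp
  · obtain ⟨i, rfl⟩ : ∃ i', i = i' + 2 := ⟨i - 2, by omega⟩
    rw [pow_add, hx]
    simp

variable (K) in
/-- The ideal `(x² - 3y² + z², y³ - yz², z⁴)`. -/
noncomputable def idA : Ideal (MvPolynomial (Fin 3) K) :=
  Ideal.span {X 0 ^ 2 - 3 * X 1 ^ 2 + X 2 ^ 2, X 1 ^ 3 - X 1 * X 2 ^ 2, X 2 ^ 4}

variable (K) in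
/-- The ideal `(x², y²)`. -/
noncomputable def idB : Ideal (MvPolynomial (Fin 2) K) := Ideal.span {X 0 ^ 2, X 1 ^ 2}

theorem hilbA (d : ℕ) : hilb (idA K) d =
    (Finset.univ.filter fun t : (Fin 4 × Fin 3) × Fin 2 =>
      (t.1.1 : ℕ) + t.1.2 + t.2 = d).card := by
  obtain ⟨B, _, _, x, y, z, hz, hy, hx, hind⟩ := exists_modelA K
  refine hilb_of_family (idA K)
    (fun t : (Fin 4 × Fin 3) × Fin 2 => X 2 ^ (t.1.1 : ℕ) * X 1 ^ (t.1.2 : ℕ) * X 0 ^ (t.2 : ℕ))
    (fun t => (t.1.1 : ℕ) + t.1.2 + t.2) ?_ (aeval ![x, y, z]) ?_ ?_ ?_ d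
  · intro t
    exact ((isHomogeneous_X_pow _ _).mul (isHomogeneous_X_pow _ _)).mul
      (isHomogeneous_X_pow _ _)
  · intro f hf
    have : idA K ≤ RingHom.ker (aeval ![x, y, z] : MvPolynomial (Fin 3) K →ₐ[K] B) := by
      rw [idA, Ideal.span_le]
      rintro g (rfl | rfl | rfl)
      · simp only [SetLike.mem_coe, RingHom.mem_ker, map_add, map_sub, map_mul, map_pow, aeval_X,
          map_ofNat]
        simp only [Matrix.cons_val]
        rw [hx]
        ring
      · simp only [SetLike.mem_coe, RingHom.mem_ker, map_sub, map_mul, map_pow, aeval_X]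
        simp only [Matrix.cons_val]
        rw [hy]
        ring
      · simp only [SetLike.mem_coe, RingHom.mem_ker, map_pow, aeval_X]
        simp only [Matrix.cons_val]
        rw [hz]
    exact this hf
  · convert hind using 1
    funext t
    simp
  · intro m
    have hm : (monomial m 1 : MvPolynomial (Fin 3) K) = X 2 ^ m 2 * X 1 ^ m 1 * X 0 ^ m 0 := by
      rw [monomial_eq, Finsupp.prod_fintype _ _ (by simp), Fin.prod_univ_three, C_1]
      ring
    have hd : m.degree = m 2 + m 1 + m 0 := by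
      rw [Finsupp.degree_eq_sum, Fin.sum_univ_three]
      ring
    have hrel : ∀ g ∈ ({X 0 ^ 2 - 3 * X 1 ^ 2 + X 2 ^ 2, X 1 ^ 3 - X 1 * X 2 ^ 2, X 2 ^ 4} :
        Set (MvPolynomial (Fin 3) K)), Ideal.Quotient.mkₐ K (idA K) g = 0 := by
      intro g hg
      exact Ideal.Quotient.eq_zero_iff_mem.2 (Ideal.subset_span hg)
    rw [hm, hd]
    have key := redA (K := K) (Ideal.Quotient.mkₐ K (idA K) (X 0))
      (Ideal.Quotient.mkₐ K (idA K) (X 1)) (Ideal.Quotient.mkₐ K (idA K) (X 2))
      (by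
        have := hrel (X 2 ^ 4) (by simp)
        simpa using this)
      (by
        have := hrel (X 1 ^ 3 - X 1 * X 2 ^ 2) (by simp)
        rw [map_sub, map_mul, map_pow, map_pow, sub_eq_zero] at this
        exact this)
      (by
        have := hrel (X 0 ^ 2 - 3 * X 1 ^ 2 + X 2 ^ 2) (by simp)
        rw [map_add, map_sub, map_mul, map_pow, map_pow, map_pow, map_ofNat] at this
        linear_combination this)
      (fun e => Submodule.span K ((fun t : (Fin 4 × Fin 3) × Fin 2 =>
        Ideal.Quotient.mkₐ K (idA K) (X 2 ^ (t.1.1 : ℕ) * X 1 ^ (t.1.2 : ℕ) * X 0 ^ (t.2 : ℕ))) ''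
          {t | (t.1.1 : ℕ) + t.1.2 + t.2 = e}))
      (by
        intro k j i hk hj hi
        apply Submodule.subset_span
        refine ⟨((⟨k, hk⟩, ⟨j, hj⟩), ⟨i, hi⟩), rfl, ?_⟩
        simp)
      (m 0) (m 1) (m 2)
    simpa only [map_mul, map_pow] using key

theorem hilbB (d : ℕ) : hilb (idB K) d =
    (Finset.univ.filter fun t : Fin 2 × Fin 2 => (t.1 : ℕ) + t.2 = d).card := by
  obtain ⟨B, _, _, x, y, hy, hx, hind⟩ := exists_modelB K
  refine hilb_of_family (idB K)
    (fun t : Fin 2 × Fin 2 => X 1 ^ (t.1 : ℕ) * X 0 ^ (t.2 : ℕ))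
    (fun t => (t.1 : ℕ) + t.2) ?_ (aeval ![x, y]) ?_ ?_ ?_ d
  · intro t
    exact (isHomogeneous_X_pow _ _).mul (isHomogeneous_X_pow _ _)
  · intro f hf
    have : idB K ≤ RingHom.ker (aeval ![x, y] : MvPolynomial (Fin 2) K →ₐ[K] B) := by
      rw [idB, Ideal.span_le]
      rintro g (rfl | rfl)
      · simp only [SetLike.mem_coe, RingHom.mem_ker, map_pow, aeval_X]
        simp only [Matrix.cons_val]
        rw [hx]
      · simp only [SetLike.mem_coe, RingHom.mem_ker, map_pow, aeval_X]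
        simp only [Matrix.cons_val]
        rw [hy]
    exact this hf
  · convert hind using 1
    funext t
    simp
  · intro m
    have hm : (monomial m 1 : MvPolynomial (Fin 2) K) = X 1 ^ m 1 * X 0 ^ m 0 := by
      rw [monomial_eq, Finsupp.prod_fintype _ _ (by simp), Fin.prod_univ_two, C_1]
      ring
    have hd : m.degree = m 1 + m 0 := by
      rw [Finsupp.degree_eq_sum, Fin.sum_univ_two]
      ring
    have hrel : ∀ g ∈ ({X 0 ^ 2, X 1 ^ 2} :
        Set (MvPolynomial (Fin 2) K)), Ideal.Quotient.mkₐ K (idB K) g = 0 := by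
      intro g hg
      exact Ideal.Quotient.eq_zero_iff_mem.2 (Ideal.subset_span hg)
    rw [hm, hd]
    have key := redB (K := K) (Ideal.Quotient.mkₐ K (idB K) (X 0))
      (Ideal.Quotient.mkₐ K (idB K) (X 1))
      (by
        have := hrel (X 1 ^ 2) (by simp)
        simpa using this)
      (by
        have := hrel (X 0 ^ 2) (by simp)
        simpa using this)
      (fun e => Submodule.span K ((fun t : Fin 2 × Fin 2 =>
        Ideal.Quotient.mkₐ K (idB K) (X 1 ^ (t.1 : ℕ) * X 0 ^ (t.2 : ℕ))) ''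
          {t | (t.1 : ℕ) + t.2 = e}))
      (by
        intro j i hj hi
        apply Submodule.subset_span
        refine ⟨(⟨j, hj⟩, ⟨i, hi⟩), rfl, ?_⟩
        simp)
      (m 0) (m 1)
    simpa only [map_mul, map_pow] using key

end Pool.Agent.Q39.ST
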