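import Pool.Agent.Q39.ST.Data
import Pool.Agent.Q39.ST.HilbAB

/-!
# The Solomon-Terao ideals of the two arrangements
-/

set_option autoImplicit false

open MvPolynomial

namespace Pool.Agent.Q39.ST

universe u

variable {K : Type u} [Field K]

theorem mem_derivs {q N n : ℕ} (M : Model q N n)
    (hne : ∀ i, (fun j => (M.a i j : K)) ≠ 0) (θ : Fin n → MvPolynomial (Fin n) K) :
    θ ∈ derivs (M.arr K) ↔
      ∀ i, lin (fun j => (M.a i j : K)) ∣ ∑ j, C (M.a i j : K) * θ j := by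
  classical
  constructor
  · intro h i
    exact h _ (hne i) (Finset.mem_image.2 ⟨i, Finset.mem_univ _, rfl⟩)
  · intro h a ha hA
    obtain ⟨i, -, hi⟩ := Finset.mem_image.1 hA
    obtain ⟨c, -, hc⟩ := hyp_inj ha (hne i) hi.symm
    have h1 : lin a = C c * lin (fun j => (M.a i j : K)) := by
      simp only [lin, Finset.mul_sum]
      refine Finset.sum_congr rfl fun j _ => ?_
      rw [hc, C_mul]
      ring
    have h2 : ∑ j, C (a j) * θ j = C c * ∑ j, C (M.a i j : K) * θ j := by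
      simp only [Finset.mul_sum]
      refine Finset.sum_congr rfl fun j _ => ?_
      rw [hc, C_mul]
      ring
    rw [h1, h2]
    exact mul_dvd_mul_left _ (h i)

theorem relX {n : ℕ} {i j : Fin n} (hij : i ≠ j) :
    IsRelPrime (X i : MvPolynomial (Fin n) K) (X j) :=
  (X_prime.irreducible.isRelPrime_iff_not_dvd).2 (by rw [X_dvd_X]; exact fun h => hij h)

theorem rel1 {n : ℕ} {i j : Fin n} (hij : i ≠ j) :
    IsRelPrime (X i : MvPolynomial (Fin n) K) (X i - X j) := by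
  intro d h1 h2
  apply relX hij h1
  have := dvd_sub h1 h2
  simpa using this

theorem rel2 {n : ℕ} {i j : Fin n} (hij : i ≠ j) :
    IsRelPrime (X i : MvPolynomial (Fin n) K) (X i + X j) := by
  intro d h1 h2
  apply relX hij h1
  have := dvd_sub h2 h1
  simpa using this

theorem rel3 [CharZero K] {n : ℕ} {i j : Fin n} (hij : i ≠ j) :
    IsRelPrime (X i - X j : MvPolynomial (Fin n) K) (X i + X j) := by
  have h2 : (2 : K) ≠ 0 := two_ne_zero
  have hC : (C (2⁻¹ : K) : MvPolynomial (Fin n) K) * 2 = 1 := by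
    have : (2 : MvPolynomial (Fin n) K) = C (2 : K) := (map_ofNat C 2).symm
    rw [this, ← C_mul, inv_mul_cancel₀ h2, C_1]
  intro d h1 h2
  have e1 : (X i : MvPolynomial (Fin n) K) =
      C (2⁻¹ : K) * ((X i - X j) + (X i + X j)) := by
    linear_combination (-X i) * hC
  have e2 : (X j : MvPolynomial (Fin n) K) =
      C (2⁻¹ : K) * ((X i + X j) - (X i - X j)) := by
    linear_combination (-X j) * hC
  apply relX hij
  · rw [e1]
    exact Dvd.dvd.mul_left (dvd_add h1 h2) _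
  · rw [e2]
    exact Dvd.dvd.mul_left (dvd_sub h2 h1) _

variable (K) in
/-- The quadratic form `x² - 3y² + z²`. -/
noncomputable def eta : MvPolynomial (Fin 3) K := X 0 ^ 2 - 3 * X 1 ^ 2 + X 2 ^ 2

theorem pd3 (i : Fin 3) : pderiv i (3 : MvPolynomial (Fin 3) K) = 0 := by
  rw [← map_ofNat C 3]
  exact pderiv_C

theorem pd0 : pderiv 0 (eta K) = 2 * X 0 := by
  simp [eta, pderiv_X, pd3]

theorem pd1 : pderiv 1 (eta K) = -6 * X 1 := by
  simp [eta, pderiv_X, pd3]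
  ring

theorem pd2 : pderiv 2 (eta K) = 2 * X 2 := by
  simp [eta, pderiv_X, pd3]

theorem neA [CharZero K] (i : Fin 6) : (fun j => (modelA.a i j : K)) ≠ 0 := by
  intro h
  have h0 := congrFun h 0
  have h1 := congrFun h 1
  have h2 := congrFun h 2
  fin_cases i <;> simp [modelA] at h0 h1 h2

theorem neB (i : Fin 2) : (fun j => (modelB.a i j : K)) ≠ 0 := by
  intro h
  have h0 := congrFun h 0
  have h1 := congrFun h 1
  fin_cases i <;> simp [modelB] at h0 h1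

theorem derivsA [CharZero K] (θ : Fin 3 → MvPolynomial (Fin 3) K) :
    θ ∈ derivs (modelA.arr K) ↔ X 2 ∣ θ 2 ∧ X 0 ∣ θ 0 ∧ X 0 - X 2 ∣ θ 0 - θ 2 ∧
      X 0 + X 2 ∣ θ 0 + θ 2 ∧ X 1 - X 2 ∣ θ 1 - θ 2 ∧ X 1 + X 2 ∣ θ 1 + θ 2 := by
  rw [mem_derivs modelA neA]
  simp [Fin.forall_fin_succ, lin, modelA, Fin.sum_univ_three, sub_eq_add_neg]

theorem derivsB (θ : Fin 2 → MvPolynomial (Fin 2) K) :
    θ ∈ derivs (modelB.arr K) ↔ X 0 ∣ θ 0 ∧ X 1 ∣ θ 1 := by
  rw [mem_derivs modelB neB]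
  simp [Fin.forall_fin_succ, lin, modelB, Fin.sum_univ_two]

theorem stIdealA [CharZero K] : stIdeal (modelA.arr K) (eta K) = idA K := by
  apply le_antisymm
  · rw [stIdeal, Ideal.span_le]
    rintro f ⟨θ, hθ, rfl⟩
    rw [derivsA] at hθ
    obtain ⟨⟨A, hA⟩, h1, h2, h3, h4, h5⟩ := hθ
    have k1 : X 0 ∣ θ 0 - A * X 0 := dvd_sub h1 (Dvd.intro_left _ rfl)
    have k2 : X 0 - X 2 ∣ θ 0 - A * X 0 := by
      have : θ 0 - A * X 0 = (θ 0 - θ 2) - (X 0 - X 2) * A := by rw [hA]; ring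
      rw [this]
      exact dvd_sub h2 (Dvd.intro _ rfl)
    have k3 : X 0 + X 2 ∣ θ 0 - A * X 0 := by
      have : θ 0 - A * X 0 = (θ 0 + θ 2) - (X 0 + X 2) * A := by rw [hA]; ring
      rw [this]
      exact dvd_sub h3 (Dvd.intro _ rfl)
    have k4 : X 1 - X 2 ∣ θ 1 - A * X 1 := by
      have : θ 1 - A * X 1 = (θ 1 - θ 2) - (X 1 - X 2) * A := by rw [hA]; ring
      rw [this]
      exact dvd_sub h4 (Dvd.intro _ rfl)
    have k5 : X 1 + X 2 ∣ θ 1 - A * X 1 := by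
      have : θ 1 - A * X 1 = (θ 1 + θ 2) - (X 1 + X 2) * A := by rw [hA]; ring
      rw [this]
      exact dvd_sub h5 (Dvd.intro _ rfl)
    have r02 : (0 : Fin 3) ≠ 2 := by decide
    have r12 : (1 : Fin 3) ≠ 2 := by decide
    obtain ⟨B, hB⟩ := IsRelPrime.mul_dvd
      (IsRelPrime.mul_left (rel2 (K := K) r02) (rel3 r02))
      (IsRelPrime.mul_dvd (rel1 (K := K) r02) k1 k2) k3
    obtain ⟨D, hD⟩ := IsRelPrime.mul_dvd (rel3 (K := K) r12) k4 k5
    have hB' : θ 0 = A * X 0 + X 0 * (X 0 - X 2) * (X 0 + X 2) * B := by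
      linear_combination hB
    have hD' : θ 1 = A * X 1 + (X 1 - X 2) * (X 1 + X 2) * D := by
      linear_combination hD
    have g1 : (X 0 ^ 2 - 3 * X 1 ^ 2 + X 2 ^ 2 : MvPolynomial (Fin 3) K) ∈ idA K :=
      Ideal.subset_span (by simp)
    have g2 : (X 1 ^ 3 - X 1 * X 2 ^ 2 : MvPolynomial (Fin 3) K) ∈ idA K :=
      Ideal.subset_span (by simp)
    have g3 : (X 2 ^ 4 : MvPolynomial (Fin 3) K) ∈ idA K :=
      Ideal.subset_span (by simp)
    have e : ∑ i, θ i * pderiv i (eta K) =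
        (2 * A + 2 * B * (X 0 ^ 2 + 3 * X 1 ^ 2 - 2 * X 2 ^ 2)) *
          (X 0 ^ 2 - 3 * X 1 ^ 2 + X 2 ^ 2) +
        (18 * B * X 1 - 6 * D) * (X 1 ^ 3 - X 1 * X 2 ^ 2) + 4 * B * X 2 ^ 4 := by
      rw [Fin.sum_univ_three, pd0, pd1, pd2, hB', hD', hA]
      ring
    rw [e]
    exact Ideal.add_mem _ (Ideal.add_mem _ (Ideal.mul_mem_left _ _ g1)
      (Ideal.mul_mem_left _ _ g2)) (Ideal.mul_mem_left _ _ g3)
  · have hC2 : (C (2⁻¹ : K) : MvPolynomial (Fin 3) K) * 2 = 1 := by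
      rw [show (2 : MvPolynomial (Fin 3) K) = C (2 : K) from (map_ofNat C 2).symm, ← C_mul,
        inv_mul_cancel₀ two_ne_zero, C_1]
    have hC6 : (C (6⁻¹ : K) : MvPolynomial (Fin 3) K) * 6 = 1 := by
      rw [show (6 : MvPolynomial (Fin 3) K) = C (6 : K) from (map_ofNat C 6).symm, ← C_mul,
        inv_mul_cancel₀ (by norm_num), C_1]
    have m1 : eta K ∈ stIdeal (modelA.arr K) (eta K) := by
      have h : ∑ i, (![X 0, X 1, X 2] : Fin 3 → MvPolynomial (Fin 3) K) i * pderiv i (eta K) ∈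
          stIdeal (modelA.arr K) (eta K) := by
        refine Ideal.subset_span ⟨_, ?_, rfl⟩
        rw [derivsA]
        simp
      have h' := Ideal.mul_mem_left _ (C (2⁻¹ : K)) h
      have e : C (2⁻¹ : K) *
          ∑ i, (![X 0, X 1, X 2] : Fin 3 → MvPolynomial (Fin 3) K) i * pderiv i (eta K) =
          eta K := by
        rw [Fin.sum_univ_three, pd0, pd1, pd2]
        simp only [Matrix.cons_val]
        rw [eta]
        linear_combination (X 0 ^ 2 - 3 * X 1 ^ 2 + X 2 ^ 2) * hC2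
      rwa [e] at h'
    have m2 : (X 1 ^ 3 - X 1 * X 2 ^ 2 : MvPolynomial (Fin 3) K) ∈
        stIdeal (modelA.arr K) (eta K) := by
      have h : ∑ i, (![0, (X 1 - X 2) * (X 1 + X 2), 0] :
          Fin 3 → MvPolynomial (Fin 3) K) i * pderiv i (eta K) ∈
          stIdeal (modelA.arr K) (eta K) := by
        refine Ideal.subset_span ⟨_, ?_, rfl⟩
        rw [derivsA]
        simp
      have h' := Ideal.mul_mem_left _ (-C (6⁻¹ : K)) h
      have e : -C (6⁻¹ : K) *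
          ∑ i, (![0, (X 1 - X 2) * (X 1 + X 2), 0] :
            Fin 3 → MvPolynomial (Fin 3) K) i * pderiv i (eta K) =
          X 1 ^ 3 - X 1 * X 2 ^ 2 := by
        rw [Fin.sum_univ_three, pd0, pd1, pd2]
        simp only [Matrix.cons_val]
        linear_combination (X 1 ^ 3 - X 1 * X 2 ^ 2) * hC6
      rwa [e] at h'
    have m3 : (X 2 ^ 4 : MvPolynomial (Fin 3) K) ∈ stIdeal (modelA.arr K) (eta K) := by
      have h : ∑ i, (![X 0 * (X 0 - X 2) * (X 0 + X 2), 0, 0] :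
          Fin 3 → MvPolynomial (Fin 3) K) i * pderiv i (eta K) ∈
          stIdeal (modelA.arr K) (eta K) := by
        refine Ideal.subset_span ⟨_, ?_, rfl⟩
        rw [derivsA]
        simp only [Matrix.cons_val]
        refine ⟨dvd_zero _, ⟨(X 0 - X 2) * (X 0 + X 2), by ring⟩,
          ⟨X 0 * (X 0 + X 2), by ring⟩, ⟨X 0 * (X 0 - X 2), by ring⟩, ?_, ?_⟩
        · simp
        · simp
      have h1 := Ideal.mul_mem_left _ (C (2⁻¹ : K) * C (2⁻¹ : K)) h
      have h2 := Ideal.mul_mem_left _ (C (2⁻¹ : K) * (X 0 ^ 2 + 3 * X 1 ^ 2 - 2 * X 2 ^ 2)) m1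
      have h3 := Ideal.mul_mem_left _ (C (2⁻¹ : K) * (9 * X 1)) m2
      have h4 := Ideal.sub_mem _ (Ideal.sub_mem _ h1 h2) h3
      have e : C (2⁻¹ : K) * C (2⁻¹ : K) *
          ∑ i, (![X 0 * (X 0 - X 2) * (X 0 + X 2), 0, 0] :
            Fin 3 → MvPolynomial (Fin 3) K) i * pderiv i (eta K) -
          C (2⁻¹ : K) * (X 0 ^ 2 + 3 * X 1 ^ 2 - 2 * X 2 ^ 2) * eta K -
          C (2⁻¹ : K) * (9 * X 1) * (X 1 ^ 3 - X 1 * X 2 ^ 2) = X 2 ^ 4 := by
        rw [Fin.sum_univ_three, pd0, pd1, pd2]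
        simp only [Matrix.cons_val]
        rw [eta]
        linear_combination (C (2⁻¹ : K) * (X 0 ^ 2 * (X 0 ^ 2 - X 2 ^ 2)) + X 2 ^ 4) * hC2
      rwa [e] at h4
    rw [idA, Ideal.span_le]
    rintro g (rfl | rfl | rfl)
    · exact m1
    · exact m2
    · exact m3

end Pool.Agent.Q39.ST
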