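import Pool.Agent.Q39.ST.Defs

/-!
# Hilbert functions from standard monomials
-/

set_option autoImplicit false

open MvPolynomial

namespace Pool.Agent.Q39.ST

variable {K : Type*} [Field K] {n : ℕ}

theorem hilb_of_family {ι : Type*} [Fintype ι] {B : Type*} [CommRing B] [Algebra K B]
    (I : Ideal (MvPolynomial (Fin n) K)) (t : ι → MvPolynomial (Fin n) K) (deg : ι → ℕ)
    (ht : ∀ i, (t i).IsHomogeneous (deg i))
    (φ : MvPolynomial (Fin n) K →ₐ[K] B) (hφ : ∀ f ∈ I, φ f = 0)
    (hind : LinearIndependent K (fun i => φ (t i)))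
    (hspan : ∀ m : Fin n →₀ ℕ, Ideal.Quotient.mkₐ K I (monomial m 1) ∈
      Submodule.span K ((fun i => Ideal.Quotient.mkₐ K I (t i)) '' {i | deg i = m.degree}))
    (d : ℕ) : hilb I d = (Finset.univ.filter fun i => deg i = d).card := by
  classical
  have hmap : Submodule.map (Ideal.Quotient.mkₐ K I).toLinearMap
      (homogeneousSubmodule (Fin n) K d) =
      Submodule.span K (Set.range fun i : {i // deg i = d} => Ideal.Quotient.mkₐ K I (t i)) := by
    have hr : (Set.range fun i : {i // deg i = d} => Ideal.Quotient.mkₐ K I (t i)) =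
        (fun i => Ideal.Quotient.mkₐ K I (t i)) '' {i | deg i = d} := by
      ext x
      simp
    rw [hr]
    apply le_antisymm
    · rw [Submodule.map_le_iff_le_comap]
      intro f hf
      rw [mem_homogeneousSubmodule] at hf
      rw [Submodule.mem_comap, f.as_sum, map_sum]
      refine Submodule.sum_mem _ fun m hm => ?_
      have hdeg : m.degree = d := by
        have := hf (mem_support_iff.1 hm)
        rw [← this, Finsupp.degree_eq_weight_one]
        rfl
      have h1 := hspan m
      rw [hdeg] at h1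
      have h2 : (monomial m (coeff m f) : MvPolynomial (Fin n) K) =
          coeff m f • monomial m 1 := by
        rw [smul_monomial]
        simp
      rw [h2, map_smul]
      exact Submodule.smul_mem _ _ h1
    · rw [Submodule.span_le]
      rintro _ ⟨i, hi, rfl⟩
      refine ⟨t i, ?_, rfl⟩
      have := ht i
      rw [Set.mem_ofPred_eq] at hi
      rw [hi] at this
      exact this
  have hind2 : LinearIndependent K (fun i => Ideal.Quotient.mkₐ K I (t i)) := by
    apply LinearIndependent.of_comp (Ideal.Quotient.liftₐ I φ hφ).toLinearMap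
    have h : (⇑(Ideal.Quotient.liftₐ I φ hφ).toLinearMap ∘
        fun i => (Ideal.Quotient.mkₐ K I) (t i)) = fun i => φ (t i) := by
      funext i
      simp
    rw [h]
    exact hind
  have hind3 : LinearIndependent K
      (fun i : {i // deg i = d} => Ideal.Quotient.mkₐ K I (t i)) :=
    hind2.comp _ Subtype.val_injective
  rw [hilb, hmap, finrank_span_eq_card hind3, Fintype.card_subtype]

/-- One step of a tower: a basis of a finite free algebra over a free algebra. -/
theorem tower_step {R : Type*} [CommRing R] [Algebra K R] {ι : Type*} {b : ι → R}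
    (hb : LinearIndependent K b) (p : Polynomial R) (hp : p.Monic) {N : ℕ}
    (hN : p.natDegree = N) :
    LinearIndependent K (fun x : ι × Fin N =>
      algebraMap R (AdjoinRoot p) (b x.1) * AdjoinRoot.root p ^ (x.2 : ℕ)) := by
  subst hN
  have h1 : LinearIndependent R (fun i : Fin p.natDegree => AdjoinRoot.root p ^ (i : ℕ)) := by
    have h := (AdjoinRoot.powerBasisAux' hp).linearIndependent
    have h2 : ⇑(AdjoinRoot.powerBasisAux' hp) =
        fun i : Fin p.natDegree => AdjoinRoot.root p ^ (i : ℕ) := by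
      funext i
      exact (AdjoinRoot.powerBasis' hp).basis_eq_pow i
    rwa [h2] at h
  have h3 := linearIndependent_smul hb h1
  have h4 : (fun x : ι × Fin p.natDegree =>
      algebraMap R (AdjoinRoot p) (b x.1) * AdjoinRoot.root p ^ (x.2 : ℕ)) =
      fun x : ι × Fin p.natDegree => b x.1 • AdjoinRoot.root p ^ (x.2 : ℕ) := by
    funext x
    rw [Algebra.smul_def]
  rw [h4]
  exact h3

universe u

/-- The tower step in existential form. -/
theorem tower_step' {R : Type u} [CommRing R] [Algebra K R] {ι : Type*} {b : ι → R}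
    (hb : LinearIndependent K b) (p : Polynomial R) (hp : p.Monic) {N : ℕ}
    (hN : p.natDegree = N) :
    ∃ (B : Type u) (_ : CommRing B) (_ : Algebra K B) (f : R →ₐ[K] B) (r : B),
      Polynomial.eval₂ (f : R →+* B) r p = 0 ∧
      LinearIndependent K (fun x : ι × Fin N => f (b x.1) * r ^ (x.2 : ℕ)) := by
  refine ⟨AdjoinRoot p, inferInstance, inferInstance,
    (IsScalarTower.toAlgHom K R (AdjoinRoot p)), AdjoinRoot.root p, ?_, ?_⟩
  · have := AdjoinRoot.eval₂_root p
    exact this
  · exact tower_step hb p hp hN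

theorem exists_modelA (K : Type u) [Field K] :
    ∃ (B : Type u) (_ : CommRing B) (_ : Algebra K B) (x y z : B),
      z ^ 4 = 0 ∧ y ^ 3 = y * z ^ 2 ∧ x ^ 2 = 3 * y ^ 2 - z ^ 2 ∧
      LinearIndependent K (fun t : (Fin 4 × Fin 3) × Fin 2 =>
        z ^ (t.1.1 : ℕ) * y ^ (t.1.2 : ℕ) * x ^ (t.2 : ℕ)) := by
  have h0 : LinearIndependent K (fun _ : Unit => (1 : K)) := by
    rw [linearIndependent_unique_iff]
    exact one_ne_zero
  obtain ⟨B1, _, _, f1, z1, hz1, hi1⟩ := tower_step' h0 (Polynomial.X ^ 4)
    (Polynomial.monic_X_pow 4) (N := 4) (by simp)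
  have hz : z1 ^ 4 = 0 := by simpa using hz1
  have hi1' : LinearIndependent K (fun x : Fin 4 => z1 ^ (x : ℕ)) := by
    have := hi1.comp (fun x : Fin 4 => ((), x)) (fun _ _ h => (Prod.mk.inj h).2)
    convert this using 1
    funext x
    simp
  have hnt : Nontrivial B1 := by
    refine ⟨1, 0, fun h => ?_⟩
    have := hi1'.ne_zero (0 : Fin 4)
    simp [h] at this
  obtain ⟨B2, _, _, f2, y2, hy2, hi2⟩ := tower_step' hi1'
    (Polynomial.X ^ 3 - Polynomial.C (z1 ^ 2) * Polynomial.X)
    (Polynomial.monic_X_pow_sub (by compute_degree!)) (N := 3) (by compute_degree!)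
  have hy : y2 ^ 3 = y2 * f2 z1 ^ 2 := by
    have := hy2
    rw [Polynomial.eval₂_sub, Polynomial.eval₂_pow, Polynomial.eval₂_X, Polynomial.eval₂_mul,
      Polynomial.eval₂_C, Polynomial.eval₂_X, RingHom.coe_coe, map_pow] at this
    linear_combination this
  have hnt2 : Nontrivial B2 := by
    refine ⟨1, 0, fun h => ?_⟩
    have := hi2.ne_zero (0, 0)
    simp [h] at this
  obtain ⟨B3, _, _, f3, x3, hx3, hi3⟩ := tower_step' hi2
    (Polynomial.X ^ 2 - Polynomial.C (3 * y2 ^ 2 - f2 z1 ^ 2))
    (Polynomial.monic_X_pow_sub (by compute_degree!)) (N := 2) (by compute_degree!)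
  have hx : x3 ^ 2 = 3 * f3 y2 ^ 2 - f3 (f2 z1) ^ 2 := by
    have := hx3
    rw [Polynomial.eval₂_sub, Polynomial.eval₂_pow, Polynomial.eval₂_X, Polynomial.eval₂_C,
      RingHom.coe_coe, map_sub, map_mul, map_pow, map_pow, map_ofNat] at this
    linear_combination this
  refine ⟨B3, inferInstance, inferInstance, x3, f3 y2, f3 (f2 z1), ?_, ?_, hx, ?_⟩
  · rw [← map_pow, ← map_pow, hz, map_zero, map_zero]
  · rw [← map_pow, hy, map_mul, map_pow]
  · convert hi3 using 1
    funext t
    simp

theorem exists_modelB (K : Type u) [Field K] :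
    ∃ (B : Type u) (_ : CommRing B) (_ : Algebra K B) (x y : B),
      y ^ 2 = 0 ∧ x ^ 2 = 0 ∧
      LinearIndependent K (fun t : Fin 2 × Fin 2 => y ^ (t.1 : ℕ) * x ^ (t.2 : ℕ)) := by
  have h0 : LinearIndependent K (fun _ : Unit => (1 : K)) := by
    rw [linearIndependent_unique_iff]
    exact one_ne_zero
  obtain ⟨B1, _, _, f1, z1, hz1, hi1⟩ := tower_step' h0 (Polynomial.X ^ 2)
    (Polynomial.monic_X_pow 2) (N := 2) (by simp)
  have hz : z1 ^ 2 = 0 := by simpa using hz1
  have hi1' : LinearIndependent K (fun x : Fin 2 => z1 ^ (x : ℕ)) := by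
    have := hi1.comp (fun x : Fin 2 => ((), x)) (fun _ _ h => (Prod.mk.inj h).2)
    convert this using 1
    funext x
    simp
  have hnt : Nontrivial B1 := by
    refine ⟨1, 0, fun h => ?_⟩
    have := hi1'.ne_zero (0 : Fin 2)
    simp [h] at this
  obtain ⟨B2, _, _, f2, y2, hy2, hi2⟩ := tower_step' hi1'
    (Polynomial.X ^ 2) (Polynomial.monic_X_pow 2) (N := 2) (by simp)
  have hy : y2 ^ 2 = 0 := by simpa using hy2
  refine ⟨B2, inferInstance, inferInstance, y2, f2 z1, ?_, hy, ?_⟩
  · rw [← map_pow, hz, map_zero]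
  · convert hi2 using 1
    funext t
    simp

end Pool.Agent.Q39.ST
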