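import Pool.Agent.Q39.ST.Defs

/-!
# Intersection lattices from finite data
-/

set_option autoImplicit false

open MvPolynomial

namespace Pool.Agent.Q39.ST

variable {K : Type*} [Field K] {n : ℕ}

theorem mem_hyp (a v : Fin n → K) : v ∈ hyp a ↔ ∑ i, a i * v i = 0 := Iff.rfl

/-- Two nonzero vectors with the same hyperplane are proportional. -/
theorem hyp_inj {a b : Fin n → K} (ha : a ≠ 0) (hb : b ≠ 0) (h : hyp a = hyp b) :
    ∃ c : K, c ≠ 0 ∧ ∀ i, a i = c * b i := by
  classical
  obtain ⟨i, hi⟩ : ∃ i, b i ≠ 0 := by
    by_contra hc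
    push Not at hc
    exact hb (funext hc)
  have key : ∀ j, a j * b i = a i * b j := by
    intro j
    by_cases hij : j = i
    · subst hij; rfl
    have hv : (fun k => if k = i then b j else if k = j then - b i else 0) ∈ hyp b := by
      rw [mem_hyp]
      have : ∀ k, b k * (if k = i then b j else if k = j then - b i else 0)
          = (if k = i then b i * b j else 0) + (if k = j then - (b j * b i) else 0) := by
        intro k
        by_cases h1 : k = i
        · subst h1
          simp [Ne.symm hij]
        · by_cases h2 : k = j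
          · subst h2
            simp [h1]
          · simp [h1, h2]
      simp only [this, Finset.sum_add_distrib, Finset.sum_ite_eq', Finset.mem_univ, if_true]
      ring
    rw [← h, mem_hyp] at hv
    have : ∀ k, a k * (if k = i then b j else if k = j then - b i else 0)
        = (if k = i then a i * b j else 0) + (if k = j then - (a j * b i) else 0) := by
      intro k
      by_cases h1 : k = i
      · subst h1
        simp [Ne.symm hij]
      · by_cases h2 : k = j
        · subst h2
          simp [h1]
        · simp [h1, h2]
    simp only [this, Finset.sum_add_distrib, Finset.sum_ite_eq', Finset.mem_univ, if_true] at hv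
    linear_combination -hv
  refine ⟨a i / b i, ?_, fun j => ?_⟩
  · intro h0
    have hai : a i = 0 := by
      rcases div_eq_zero_iff.1 h0 with h | h
      · exact h
      · exact absurd h hi
    apply ha
    funext j
    have := key j
    rw [hai, zero_mul] at this
    rcases mul_eq_zero.1 this with h | h
    · exact h
    · exact absurd h hi
  · have := key j
    field_simp
    linear_combination this

/-- Cutting a subspace by a hyperplane not containing it drops the dimension by one. -/
theorem finrank_cut (X : Submodule K (Fin n → K)) (a : Fin n → K) (h : ¬ X ≤ hyp a) :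
    Module.finrank K (X ⊓ hyp a : Submodule K (Fin n → K)) + 1 = Module.finrank K X := by
  classical
  let f : (Fin n → K) →ₗ[K] K := ∑ i, a i • LinearMap.proj i
  have hf : ∀ v, f v = ∑ i, a i * v i := by
    intro v
    simp [f]
  have hker : hyp a = LinearMap.ker f := by
    ext v
    rw [mem_hyp, LinearMap.mem_ker, hf]
  let g : X →ₗ[K] K := f ∘ₗ X.subtype
  have hg : LinearMap.range g = ⊤ := by
    obtain ⟨v, hv, hv'⟩ := SetLike.not_le_iff_exists.1 h
    rw [hker, LinearMap.mem_ker] at hv'
    rw [LinearMap.range_eq_top]
    intro c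
    refine ⟨(c / f v) • ⟨v, hv⟩, ?_⟩
    simp only [map_smul, smul_eq_mul, g, LinearMap.comp_apply, Submodule.subtype_apply]
    field_simp
  have h1 := LinearMap.finrank_range_add_finrank_ker g
  rw [hg, finrank_top, Module.finrank_self] at h1
  have h2 : Submodule.map X.subtype (LinearMap.ker g) = X ⊓ hyp a := by
    rw [hker]
    ext v
    simp only [Submodule.mem_map, LinearMap.mem_ker, Submodule.mem_inf, g, LinearMap.comp_apply,
      Submodule.subtype_apply, Subtype.exists, exists_and_right, exists_eq_right]
    constructor
    · rintro ⟨h, h'⟩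
      exact ⟨h, h'⟩
    · rintro ⟨h, h'⟩
      exact ⟨h, h'⟩
  have h3 : Module.finrank K (X ⊓ hyp a : Submodule K (Fin n → K)) =
      Module.finrank K (LinearMap.ker g) := by
    rw [← h2]
    exact (Submodule.equivMapOfInjective X.subtype (Submodule.injective_subtype X)
      (LinearMap.ker g)).finrank_eq.symm
  omega

/-- The combinatorial data of an arrangement with normal vectors `a i`: closed sets `F c`, a
generic vector of each flat, the action of the hyperplanes on the flats, ranks and Möbius values. -/
structure Model (q N n : ℕ) where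
  a : Fin q → Fin n → ℤ
  F : Fin N → Finset (Fin q)
  w : Fin N → Fin n → ℤ
  st : Fin N → Fin q → Fin N
  rk : Fin N → ℕ
  m : Fin N → ℤ
  top : Fin N

namespace Model

variable {q N : ℕ} (M : Model q N n)

/-- The decidable conditions on the data. -/
structure Good : Prop where
  gen : ∀ c i, (∑ j, M.a i j * M.w c j = 0) ↔ i ∈ M.F c
  inj : ∀ c d, M.F c = M.F d → c = d
  ftop : M.F M.top = ∅
  rktop : M.rk M.top = 0
  chain : ∀ c, c = M.top ∨ ∃ d i, M.st d i = c ∧ i ∉ M.F d ∧ M.rk c = M.rk d + 1
  mtop : M.m M.top = 1
  mob : ∀ c, c ≠ M.top → ∑ d with M.F d ⊆ M.F c, M.m d = 0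

variable (K)

/-- The hyperplanes of the model. -/
def h (i : Fin q) : Submodule K (Fin n → K) := hyp (fun j => (M.a i j : K))

/-- The flats of the model. -/
noncomputable def flat (c : Fin N) : Submodule K (Fin n → K) := ⨅ i ∈ M.F c, M.h K i

open Classical in
/-- The arrangement of the model. -/
noncomputable def arr : Finset (Submodule K (Fin n → K)) := Finset.univ.image (M.h K)

theorem mem_flat (c : Fin N) (v : Fin n → K) :
    v ∈ M.flat K c ↔ ∀ i ∈ M.F c, ∑ j, (M.a i j : K) * v j = 0 := by
  simp only [flat, Submodule.mem_iInf, h, mem_hyp]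

variable [CharZero K]

theorem flat_le_h (hM : M.Good) (c : Fin N) (i : Fin q) :
    M.flat K c ≤ M.h K i ↔ i ∈ M.F c := by
  constructor
  · intro hle
    have hw : (fun j => (M.w c j : K)) ∈ M.flat K c := by
      rw [mem_flat]
      intro k hk
      have := (hM.gen c k).2 hk
      exact_mod_cast this
    have := hle hw
    rw [h, mem_hyp] at this
    apply (hM.gen c i).1
    exact_mod_cast this
  · intro hi
    exact iInf₂_le i hi

theorem flat_le (hM : M.Good) (c d : Fin N) :
    M.flat K c ≤ M.flat K d ↔ M.F d ⊆ M.F c := by
  constructor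
  · intro hle i hi
    exact (M.flat_le_h K hM c i).1 (hle.trans ((M.flat_le_h K hM d i).2 hi))
  · intro hs
    exact le_iInf₂ fun i hi => (M.flat_le_h K hM c i).2 (hs hi)

theorem flat_inj (hM : M.Good) : Function.Injective (M.flat K) := by
  intro c d hcd
  apply hM.inj
  exact le_antisymm ((M.flat_le K hM d c).1 hcd.ge) ((M.flat_le K hM c d).1 hcd.le)

omit [CharZero K] in
theorem flat_top (hM : M.Good) : M.flat K M.top = ⊤ := by
  simp [flat, hM.ftop]

theorem h_ne_top (hM : M.Good) (i : Fin q) : M.h K i ≠ ⊤ := by
  intro ht
  have := (M.flat_le_h K hM M.top i).1 (by rw [ht]; exact le_top)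
  rw [hM.ftop] at this
  simp at this

omit [CharZero K] in
theorem latt_eq (hM : M.Good)
    (hst : ∀ c i, M.flat K c ⊓ M.h K i = M.flat K (M.st c i)) :
    latt (M.arr K) = Finset.univ.image (M.flat K) := by
  classical
  ext X
  simp only [latt, Finset.mem_image, Finset.mem_powerset, Finset.mem_univ, true_and]
  constructor
  · rintro ⟨B, hB, rfl⟩
    have key : ∀ s : Finset (Fin q), ∃ c, M.flat K c = sInf ((s.image (M.h K) : Finset _) :
        Set (Submodule K (Fin n → K))) := by
      intro s
      induction s using Finset.induction_on with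
      | empty => exact ⟨M.top, by simp [M.flat_top K hM]⟩
      | insert i s his ih =>
        obtain ⟨c, hc⟩ := ih
        refine ⟨M.st c i, ?_⟩
        rw [← hst, hc, Finset.image_insert, Finset.coe_insert, sInf_insert, inf_comm]
    obtain ⟨s, -, hs⟩ := Finset.subset_image_iff.1 hB
    obtain ⟨c, hc⟩ := key s
    exact ⟨c, by rw [hc, hs]⟩
  · rintro ⟨c, rfl⟩
    refine ⟨(M.F c).image (M.h K), Finset.image_subset_image (Finset.subset_univ _), ?_⟩
    rw [flat, Finset.coe_image, sInf_image]
    simp

theorem finrank_flat (hM : M.Good)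
    (hst : ∀ c i, M.flat K c ⊓ M.h K i = M.flat K (M.st c i)) (c : Fin N) :
    Module.finrank K (M.flat K c) + M.rk c = n := by
  have key : ∀ r c, M.rk c = r → Module.finrank K (M.flat K c) + r = n := by
    intro r
    induction r with
    | zero =>
      intro c hc
      rcases hM.chain c with h | ⟨d, i, -, -, h⟩
      · subst h
        rw [M.flat_top K hM]
        simp
      · omega
    | succ r ih =>
      intro c hc
      rcases hM.chain c with h | ⟨d, i, h1, h2, h3⟩
      · subst h
        rw [hM.rktop] at hc
        omega
      · have h4 := ih d (by omega)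
        have h5 := finrank_cut (M.flat K d) (fun j => (M.a i j : K))
          (fun hle => h2 ((M.flat_le_h K hM d i).1 hle))
        have h6 := hst d i
        rw [h] at h6
        rw [h6, h1] at h5
        omega
  exact key _ c rfl

/-- The Poincaré polynomial of the arrangement of a model. -/
theorem isPoincare (hM : M.Good)
    (hst : ∀ c i, M.flat K c ⊓ M.h K i = M.flat K (M.st c i)) :
    IsPoincare (M.arr K) (∑ c, Polynomial.C (M.m c : ℚ) * (-Polynomial.X) ^ M.rk c) := by
  classical
  have hinj := M.flat_inj K hM
  let μ : Submodule K (Fin n → K) → ℤ := fun X => ∑ c, if M.flat K c = X then M.m c else 0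
  have hμ : ∀ c, μ (M.flat K c) = M.m c := by
    intro c
    simp only [μ]
    rw [Finset.sum_eq_single c]
    · simp
    · intro d _ hd
      rw [if_neg (fun h => hd (hinj h))]
    · simp
  refine ⟨μ, ⟨?_, ?_⟩, ?_⟩
  · rw [← M.flat_top K hM, hμ, hM.mtop]
  · intro X hX hX'
    rw [M.latt_eq K hM hst] at hX ⊢
    obtain ⟨c, -, rfl⟩ := Finset.mem_image.1 hX
    rw [Finset.sum_filter, Finset.sum_image (fun _ _ _ _ h => hinj h)]
    have hc : c ≠ M.top := by
      rintro rfl
      exact hX' (M.flat_top K hM)
    refine Eq.trans ?_ (hM.mob c hc)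
    rw [Finset.sum_filter]
    refine Finset.sum_congr rfl fun d _ => ?_
    rw [hμ]
    simp only [M.flat_le K hM c d]
  · rw [M.latt_eq K hM hst, Finset.sum_image (fun _ _ _ _ h => hinj h)]
    refine Finset.sum_congr rfl fun c _ => ?_
    have := M.finrank_flat K hM hst c
    rw [hμ, show n - Module.finrank K (M.flat K c) = M.rk c by omega]

end Model

end Pool.Agent.Q39.ST
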