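import Pool.Agent.Q39.ST.Restr

/-!
# Divisibility of Hilbert series does not imply divisibility of Poincare polynomials
-/

set_option autoImplicit false

open MvPolynomial

namespace Pool.Agent.Q39.ST

universe u

variable {K : Type u} [Field K]

theorem isArrA [CharZero K] : IsArr (modelA.arr K) := by
  classical
  intro H hH
  obtain ⟨i, -, rfl⟩ := Finset.mem_image.1 hH
  exact ⟨_, neA i, rfl⟩

theorem memA : modelA.h K 0 ∈ modelA.arr K := by
  classical
  exact Finset.mem_image.2 ⟨0, Finset.mem_univ _, rfl⟩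

theorem poinA [CharZero K] : IsPoincare (modelA.arr K)
    ((1 + Polynomial.X) * (1 + 2 * Polynomial.X) * (1 + 3 * Polynomial.X)) := by
  have h := modelA.isPoincare K goodA stA
  have e : ∑ c, Polynomial.C (modelA.m c : ℚ) * (-Polynomial.X) ^ modelA.rk c =
      (1 + Polynomial.X) * (1 + 2 * Polynomial.X) * (1 + 3 * Polynomial.X) := by
    simp [modelA, Fin.sum_univ_succ]
    ring
  rwa [e] at h

theorem poinB [CharZero K] : IsPoincare (modelB.arr K)
    ((1 + Polynomial.X) * (1 + Polynomial.X)) := by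
  have h := modelB.isPoincare K goodB stB
  have e : ∑ c, Polynomial.C (modelB.m c : ℚ) * (-Polynomial.X) ^ modelB.rk c =
      (1 + Polynomial.X) * (1 + Polynomial.X) := by
    simp [modelB, Fin.sum_univ_succ]
    ring
  rwa [e] at h

theorem isHilbA [CharZero K] : IsHilb (modelA.arr K) (eta K)
    ((1 + Polynomial.X) * (1 + Polynomial.X + Polynomial.X ^ 2) *
      (1 + Polynomial.X + Polynomial.X ^ 2 + Polynomial.X ^ 3)) := by
  intro d
  have e : ((1 + Polynomial.X) * (1 + Polynomial.X + Polynomial.X ^ 2) *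
      (1 + Polynomial.X + Polynomial.X ^ 2 + Polynomial.X ^ 3) : Polynomial ℚ) =
      ∑ t : (Fin 4 × Fin 3) × Fin 2, Polynomial.X ^ ((t.1.1 : ℕ) + t.1.2 + t.2) := by
    simp [Fintype.sum_prod_type, Fin.sum_univ_succ]
    ring
  rw [stIdealA, hilbA, e, Polynomial.finsetSum_coeff]
  simp [Polynomial.coeff_X_pow, eq_comm]

theorem isHilbB [CharZero K] : IsHilb (modelB.arr K) (etaB K)
    ((1 + Polynomial.X) * (1 + Polynomial.X)) := by
  intro d
  have e : ((1 + Polynomial.X) * (1 + Polynomial.X) : Polynomial ℚ) =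
      ∑ t : Fin 2 × Fin 2, Polynomial.X ^ ((t.1 : ℕ) + t.2) := by
    simp [Fintype.sum_prod_type, Fin.sum_univ_succ]
    ring
  rw [stIdealB, hilbB, e, Polynomial.finsetSum_coeff]
  simp [Polynomial.coeff_X_pow, eq_comm]

theorem dvd_AB : ((1 + Polynomial.X) * (1 + Polynomial.X) : Polynomial ℚ) ∣
    (1 + Polynomial.X) * (1 + Polynomial.X + Polynomial.X ^ 2) *
      (1 + Polynomial.X + Polynomial.X ^ 2 + Polynomial.X ^ 3) :=
  ⟨(1 + Polynomial.X + Polynomial.X ^ 2) * (1 + Polynomial.X ^ 2), by ring⟩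

theorem not_dvd_AB : ¬ ((1 + Polynomial.X) * (1 + Polynomial.X) : Polynomial ℚ) ∣
    (1 + Polynomial.X) * (1 + 2 * Polynomial.X) * (1 + 3 * Polynomial.X) := by
  intro h
  have h0 : (1 + Polynomial.X : Polynomial ℚ) ≠ 0 := by
    intro h0
    have := congrArg (Polynomial.eval 0) h0
    simp at this
  rw [mul_assoc] at h
  have h1 := (mul_dvd_mul_iff_left h0).1 h
  obtain ⟨q, hq⟩ := h1
  have h2 := congrArg (Polynomial.eval (-1)) hq
  simp at h2
  norm_num at h2

end Pool.Agent.Q39.ST
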