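import Pool.Agent.Q39.ST.Der

/-!
# The restriction and the non-degeneracy of the quadratic form
-/

set_option autoImplicit false

open MvPolynomial

namespace Pool.Agent.Q39.ST

universe u

variable {K : Type u} [Field K]

variable (K) in
/-- The quadratic form `x² - 3y²`. -/
noncomputable def etaB : MvPolynomial (Fin 2) K := X 0 ^ 2 - 3 * X 1 ^ 2

theorem pe3 (i : Fin 2) : pderiv i (3 : MvPolynomial (Fin 2) K) = 0 := by
  rw [← map_ofNat C 3]
  exact pderiv_C

theorem pe0 : pderiv 0 (etaB K) = 2 * X 0 := by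
  simp [etaB, pderiv_X, pe3]

theorem pe1 : pderiv 1 (etaB K) = -6 * X 1 := by
  simp [etaB, pderiv_X, pe3]
  ring

theorem stIdealB [CharZero K] : stIdeal (modelB.arr K) (etaB K) = idB K := by
  apply le_antisymm
  · rw [stIdeal, Ideal.span_le]
    rintro f ⟨θ, hθ, rfl⟩
    rw [derivsB] at hθ
    obtain ⟨⟨A, hA⟩, ⟨B, hB⟩⟩ := hθ
    have g1 : (X 0 ^ 2 : MvPolynomial (Fin 2) K) ∈ idB K := Ideal.subset_span (by simp)
    have g2 : (X 1 ^ 2 : MvPolynomial (Fin 2) K) ∈ idB K := Ideal.subset_span (by simp)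
    have e : ∑ i, θ i * pderiv i (etaB K) = 2 * A * X 0 ^ 2 + (-6 * B) * X 1 ^ 2 := by
      rw [Fin.sum_univ_two, pe0, pe1, hA, hB]
      ring
    rw [e]
    exact Ideal.add_mem _ (Ideal.mul_mem_left _ _ g1) (Ideal.mul_mem_left _ _ g2)
  · have hC2 : (C (2⁻¹ : K) : MvPolynomial (Fin 2) K) * 2 = 1 := by
      rw [show (2 : MvPolynomial (Fin 2) K) = C (2 : K) from (map_ofNat C 2).symm, ← C_mul,
        inv_mul_cancel₀ two_ne_zero, C_1]
    have hC6 : (C (6⁻¹ : K) : MvPolynomial (Fin 2) K) * 6 = 1 := by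
      rw [show (6 : MvPolynomial (Fin 2) K) = C (6 : K) from (map_ofNat C 6).symm, ← C_mul,
        inv_mul_cancel₀ (by norm_num), C_1]
    rw [idB, Ideal.span_le]
    rintro g (rfl | rfl)
    · have h : ∑ i, (![X 0, 0] : Fin 2 → MvPolynomial (Fin 2) K) i * pderiv i (etaB K) ∈
          stIdeal (modelB.arr K) (etaB K) := by
        refine Ideal.subset_span ⟨_, ?_, rfl⟩
        rw [derivsB]
        simp
      have h' := Ideal.mul_mem_left _ (C (2⁻¹ : K)) h
      have e : C (2⁻¹ : K) *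
          ∑ i, (![X 0, 0] : Fin 2 → MvPolynomial (Fin 2) K) i * pderiv i (etaB K) =
          X 0 ^ 2 := by
        rw [Fin.sum_univ_two, pe0, pe1]
        simp only [Matrix.cons_val]
        linear_combination (X 0 ^ 2) * hC2
      rwa [e] at h'
    · have h : ∑ i, (![0, X 1] : Fin 2 → MvPolynomial (Fin 2) K) i * pderiv i (etaB K) ∈
          stIdeal (modelB.arr K) (etaB K) := by
        refine Ideal.subset_span ⟨_, ?_, rfl⟩
        rw [derivsB]
        simp
      have h' := Ideal.mul_mem_left _ (-C (6⁻¹ : K)) h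
      have e : -C (6⁻¹ : K) *
          ∑ i, (![0, X 1] : Fin 2 → MvPolynomial (Fin 2) K) i * pderiv i (etaB K) =
          X 1 ^ 2 := by
        rw [Fin.sum_univ_two, pe0, pe1]
        simp only [Matrix.cons_val]
        linear_combination (X 1 ^ 2) * hC6
      rwa [e] at h'

variable (K) in
/-- The coordinates `(x, y) ↦ (x, y, 0)` on the plane `z = 0`. -/
noncomputable def coordH : (Fin 2 → K) ≃ₗ[K] modelA.h K 0 where
  toFun v := ⟨![v 0, v 1, 0], by simp [Model.h, mem_hyp, modelA, Fin.sum_univ_three]⟩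
  invFun v := ![(v : Fin 3 → K) 0, (v : Fin 3 → K) 1]
  map_add' v w := by
    apply Subtype.ext
    funext i
    fin_cases i <;> simp
  map_smul' c v := by
    apply Subtype.ext
    funext i
    fin_cases i <;> simp
  left_inv v := by
    funext i
    fin_cases i <;> simp
  right_inv v := by
    obtain ⟨v, hv⟩ := v
    have hv' : v 2 = 0 := by
      simpa [Model.h, mem_hyp, modelA, Fin.sum_univ_three] using hv
    apply Subtype.ext
    funext i
    fin_cases i <;> simp [hv']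

theorem coordH_apply (v : Fin 2 → K) : ((coordH K v : modelA.h K 0) : Fin 3 → K) =
    ![v 0, v 1, 0] := rfl

theorem restrPoly_eq : restrPoly (modelA.h K 0) (coordH K) (eta K) = etaB K := by
  simp only [restrPoly, eta, etaB, map_add, map_sub, map_mul, map_pow, aeval_X, map_ofNat,
    coordH_apply, Fin.sum_univ_two]
  simp

theorem comapA (i : Fin 6) : (modelA.h K i).comap
    ((modelA.h K 0).subtype ∘ₗ (coordH K).toLinearMap) =
    hyp (fun j : Fin 2 => (modelA.a i (Fin.castSucc j) : K)) := by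
  ext v
  rw [Submodule.mem_comap, Model.h, mem_hyp, mem_hyp]
  simp [coordH_apply, Fin.sum_univ_three, Fin.sum_univ_two]

theorem flat_one : modelA.flat K 1 = modelA.h K 0 := by
  simp [Model.flat, modelA]

theorem h_zero [CharZero K] (i : Fin 6) (hi : modelA.h K i = modelA.h K 0) : i = 0 := by
  have h1 := (modelA.flat_le_h K goodA 1 i).1 (by rw [flat_one, hi])
  simpa [modelA] using h1

theorem comapB0 (i : Fin 6) (hi : i = 1 ∨ i = 2 ∨ i = 3) :
    hyp (fun j : Fin 2 => (modelA.a i (Fin.castSucc j) : K)) = modelB.h K 0 := by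
  rw [Model.h]
  congr 1
  funext j
  rcases hi with rfl | rfl | rfl <;> fin_cases j <;> simp [modelA, modelB]

theorem comapB1 (i : Fin 6) (hi : i = 4 ∨ i = 5) :
    hyp (fun j : Fin 2 => (modelA.a i (Fin.castSucc j) : K)) = modelB.h K 1 := by
  rw [Model.h]
  congr 1
  funext j
  rcases hi with rfl | rfl <;> fin_cases j <;> simp [modelA, modelB]

theorem restrArr_eq [CharZero K] :
    restrArr (modelA.arr K) (modelA.h K 0) (coordH K) = modelB.arr K := by
  classical
  ext L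
  simp only [restrArr, Model.arr, Finset.mem_image, Finset.mem_erase, Finset.mem_univ, true_and]
  constructor
  · rintro ⟨_, ⟨h1, i, rfl⟩, rfl⟩
    rw [comapA]
    have hi : i ≠ 0 := by
      rintro rfl
      exact h1 rfl
    by_cases h : i = 1 ∨ i = 2 ∨ i = 3
    · exact ⟨0, (comapB0 i h).symm⟩
    · exact ⟨1, (comapB1 i (by omega)).symm⟩
  · rintro ⟨i, rfl⟩
    by_cases h : i = 0
    · subst h
      refine ⟨modelA.h K 1, ⟨fun h => ?_, 1, rfl⟩, ?_⟩
      · exact absurd (h_zero 1 h) (by decide)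
      · rw [comapA, comapB0 1 (Or.inl rfl)]
    · have : i = 1 := by omega
      subst this
      refine ⟨modelA.h K 4, ⟨fun h => ?_, 4, rfl⟩, ?_⟩
      · exact absurd (h_zero 4 h) (by decide)
      · rw [comapA, comapB1 4 (Or.inl rfl)]

/-- Spanning vectors of the flats. -/
def spanA : Fin 16 → Fin 3 → Fin 3 → ℤ :=
  ![![![1, 0, 0], ![0, 1, 0], ![0, 0, 1]],
    ![![1, 0, 0], ![0, 1, 0], ![0, 0, 0]],
    ![![0, 1, 0], ![0, 0, 1], ![0, 0, 0]],
    ![![1, 0, 1], ![0, 1, 0], ![0, 0, 0]],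
    ![![-1, 0, 1], ![0, 1, 0], ![0, 0, 0]],
    ![![1, 0, 0], ![0, 1, 1], ![0, 0, 0]],
    ![![1, 0, 0], ![0, -1, 1], ![0, 0, 0]],
    ![![0, 1, 0], ![0, 0, 0], ![0, 0, 0]],
    ![![1, 0, 0], ![0, 0, 0], ![0, 0, 0]],
    ![![0, 1, 1], ![0, 0, 0], ![0, 0, 0]],
    ![![0, -1, 1], ![0, 0, 0], ![0, 0, 0]],
    ![![1, 1, 1], ![0, 0, 0], ![0, 0, 0]],
    ![![1, -1, 1], ![0, 0, 0], ![0, 0, 0]],
    ![![-1, 1, 1], ![0, 0, 0], ![0, 0, 0]],
    ![![-1, -1, 1], ![0, 0, 0], ![0, 0, 0]],
    ![![0, 0, 0], ![0, 0, 0], ![0, 0, 0]]]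

theorem spanA_mem : ∀ (c : Fin 16) (k : Fin 3) (i : Fin 6), i ∈ modelA.F c →
    ∑ j, modelA.a i j * spanA c k j = 0 := by
  decide +kernel

theorem spanA_flat (c : Fin 16) (k : Fin 3) :
    (fun j => (spanA c k j : K)) ∈ modelA.flat K c := by
  rw [Model.mem_flat]
  intro i hi
  have := spanA_mem c k i hi
  exact_mod_cast congrArg (Int.cast : ℤ → K) this

theorem nonDegA [CharZero K] (c : Fin 16) : NonDeg (eta K) (modelA.flat K c) := by
  intro v hv hv0
  by_contra hcon
  push Not at hcon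
  have h0 := hcon _ (spanA_flat c 0)
  have h1 := hcon _ (spanA_flat c 1)
  have h2 := hcon _ (spanA_flat c 2)
  rw [Model.mem_flat] at hv
  apply hv0
  have hz : v 0 = 0 ∧ v 1 = 0 ∧ v 2 = 0 := by
    simp only [Fin.sum_univ_three, pd0, pd1, pd2, map_mul, map_neg, map_ofNat, eval_X] at h0 h1 h2
    fin_cases c <;> simp [modelA, spanA, Fin.sum_univ_three] at hv h0 h1 h2 ⊢ <;> grind
  funext j
  fin_cases j
  · exact hz.1
  · exact hz.2.1
  · exact hz.2.2

theorem u2A [CharZero K] : U2 (modelA.arr K) (eta K) := by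
  classical
  refine ⟨?_, ?_⟩
  · rw [eta]
    refine ((isHomogeneous_X_pow _ _).sub ?_).add (isHomogeneous_X_pow _ _)
    have h := (isHomogeneous_C (Fin 3) (3 : K)).mul (isHomogeneous_X_pow (R := K) (1 : Fin 3) 2)
    rw [map_ofNat, zero_add] at h
    exact h
  · intro X hX
    rw [modelA.latt_eq K goodA stA] at hX
    obtain ⟨c, -, rfl⟩ := Finset.mem_image.1 hX
    exact nonDegA c

end Pool.Agent.Q39.ST
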